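import Mathlib
import Pool.Agent.H380.AG.Stm
import Pool.Graph.R_seed8.W376.AG.Sum

/-!
# AG project (helper380), task A2: lower bound for the pair sums (helper726)
-/

set_option autoImplicit false

open MeasureTheory Metric Set Filter Topology
open scoped ENNReal RealInnerProductSpace

namespace Pool.Agent.H726.AG

open Pool.Agent.W778.AG Pool.Agent.H380.AG

/-! ### Elementary facts on the polynomials -/

theorem Pg_cont (n k : ℕ) : Continuous (Pg n k) := by
  induction k using Nat.twoStepInduction with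
  | zero => exact continuous_const
  | one => exact continuous_id
  | more k h1 h2 =>
    show Continuous fun t => ((2 * (k : ℝ) + n) * t * Pg n (k + 1) t -
      ((k : ℝ) + 1) * Pg n k t) / ((k : ℝ) + n - 1)
    fun_prop

theorem Pg_one (n k : ℕ) (hn : 3 ≤ n) : Pg n k 1 = 1 := by
  have hn' : (3 : ℝ) ≤ n := by exact_mod_cast hn
  induction k using Nat.twoStepInduction with
  | zero => rfl
  | one => rfl
  | more k h1 h2 =>
    show ((2 * (k : ℝ) + n) * 1 * Pg n (k + 1) 1 - ((k : ℝ) + 1) * Pg n k 1) /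
      ((k : ℝ) + n - 1) = 1
    rw [h1, h2, div_eq_one_iff_eq]
    · ring
    · have : (0 : ℝ) ≤ k := Nat.cast_nonneg k
      linarith

theorem Pg_le' (hB : S_BD) {n : ℕ} (hn : 3 ≤ n) (k : ℕ) {t : ℝ} (ht : |t| ≤ 1) :
    |Pg n k t| ≤ 1 := by
  obtain ⟨m, rfl⟩ : ∃ m, n = m + 3 := ⟨n - 3, by omega⟩
  exact Pool.Agent.W376.AG.Pg_le hB m k ht

theorem dk_nonneg {n : ℕ} (hn : 3 ≤ n) (k : ℕ) : 0 ≤ dk n k := by
  have hn' : (3 : ℝ) ≤ n := by exact_mod_cast hn
  have hk : (0 : ℝ) ≤ k := Nat.cast_nonneg k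
  unfold dk
  refine mul_nonneg (div_nonneg (by linarith) (by linarith)) (Nat.cast_nonneg _)

theorem dk_zero {n : ℕ} (hn : 3 ≤ n) : dk n 0 = 1 := by
  have hn' : (3 : ℝ) ≤ n := by exact_mod_cast hn
  unfold dk
  have h1 : (n : ℝ) - 2 ≠ 0 := by linarith
  simp [h1]

theorem summ (h2 : S_SUM) {n : ℕ} (hn : 3 ≤ n) {w : ℝ} (hw0 : 0 ≤ w) (hw1 : w < 1) :
    Summable fun k : ℕ => w ^ k * dk n k := by
  have h := (h2 n hn w hw0 hw1 1 (by simp)).summable
  refine h.congr fun k => ?_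
  rw [Pg_one n k hn, mul_one]

/-! ### Measures on the sphere -/

section sph

variable {n : ℕ}

theorem ae_norm {μ : Measure (En n)} (hμ : Sph μ) : ∀ᵐ u ∂μ, ‖u‖ = 1 := by
  rw [ae_iff]
  have h : {u : En n | ¬‖u‖ = 1} = (sphere (0 : En n) 1)ᶜ := by
    ext u
    simp
  rw [h]
  exact hμ.2

theorem ae_norm2 {μ μ' : Measure (En n)} (hμ : Sph μ) (hμ' : Sph μ') :
    ∀ᵐ p ∂(μ.prod μ'), ‖p.1‖ = 1 ∧ ‖p.2‖ = 1 := by
  have := hμ.1
  have := hμ'.1
  have h1 : ∀ᵐ p ∂(μ.prod μ'), ‖p.1‖ = 1 := Measure.quasiMeasurePreserving_fst.ae (ae_norm hμ)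
  have h2 : ∀ᵐ p ∂(μ.prod μ'), ‖p.2‖ = 1 := Measure.quasiMeasurePreserving_snd.ae (ae_norm hμ')
  exact h1.and h2

theorem inner_le {u v : En n} (hu : ‖u‖ = 1) (hv : ‖v‖ = 1) : |⟪u, v⟫| ≤ 1 := by
  have := abs_real_inner_le_norm u v
  rwa [hu, hv, mul_one] at this

theorem int_ker {μ μ' : Measure (En n)} (hμ : Sph μ) (hμ' : Sph μ') (g : ℝ → ℝ)
    (hg : Measurable g) (C : ℝ) (hC : ∀ t, |t| ≤ 1 → |g t| ≤ C) :
    Integrable (fun p : En n × En n => g ⟪p.1, p.2⟫) (μ.prod μ') := by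
  have := hμ.1
  have := hμ'.1
  refine Integrable.of_bound ?_ C ?_
  · refine (hg.comp ?_).aestronglyMeasurable
    exact (continuous_fst.inner continuous_snd).measurable
  · filter_upwards [ae_norm2 hμ hμ'] with p hp
    exact hC _ (inner_le hp.1 hp.2)

theorem int_Pg (hB : S_BD) (hn : 3 ≤ n) (k : ℕ) {μ μ' : Measure (En n)} (hμ : Sph μ)
    (hμ' : Sph μ') : Integrable (fun p : En n × En n => Pg n k ⟪p.1, p.2⟫) (μ.prod μ') :=
  int_ker hμ hμ' _ (Pg_cont n k).measurable 1 fun _ ht => Pg_le' hB hn k ht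

theorem fm_eq (hB : S_BD) (hn : 3 ≤ n) (k : ℕ) {μ μ' : Measure (En n)} (hμ : Sph μ)
    (hμ' : Sph μ') : fm n k μ μ' = ∫ p, Pg n k ⟪p.1, p.2⟫ ∂(μ.prod μ') := by
  have := hμ.1
  have := hμ'.1
  exact (integral_prod _ (int_Pg hB hn k hμ hμ')).symm

theorem fm_symm (hB : S_BD) (hn : 3 ≤ n) (k : ℕ) {μ μ' : Measure (En n)} (hμ : Sph μ)
    (hμ' : Sph μ') : fm n k μ μ' = fm n k μ' μ := by
  have := hμ.1
  have := hμ'.1
  have h := integral_integral_swap (f := fun u v => Pg n k ⟪u, v⟫) (int_Pg hB hn k hμ hμ')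
  unfold fm
  rw [h]
  simp only [real_inner_comm]

theorem fm_le (hB : S_BD) (hn : 3 ≤ n) (k : ℕ) {μ μ' : Measure (En n)} (hμ : Sph μ)
    (hμ' : Sph μ') : |fm n k μ μ'| ≤ 1 := by
  have := hμ.1
  have := hμ'.1
  rw [fm_eq hB hn k hμ hμ']
  have h := norm_integral_le_of_norm_le_const (μ := μ.prod μ')
    (f := fun p => Pg n k ⟪p.1, p.2⟫) (C := 1) (by
      filter_upwards [ae_norm2 hμ hμ'] with p hp
      exact Pg_le' hB hn k (inner_le hp.1 hp.2))
  simpa using h

theorem fm_zero {μ μ' : Measure (En n)} (hμ : Sph μ) (hμ' : Sph μ') : fm n 0 μ μ' = 1 := by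
  have := hμ.1
  have := hμ'.1
  unfold fm
  have h : ∀ t, Pg n 0 t = 1 := fun _ => rfl
  simp [h]

/-- partial sums of the expansion of the energy -/
theorem psum (h1 : S_PSD) (h2 : S_SUM) (hB : S_BD) (hn : 3 ≤ n) {μ : Measure (En n)}
    (hμ : Sph μ) {w : ℝ} (hw : w ∈ Ioo (0 : ℝ) 1) {B : ℝ}
    (hpk : ∀ v : En n, ‖v‖ = 1 → ∫ u, pk n w ⟪v, u⟫ ∂μ ≤ B) (K : Finset ℕ) :
    ∑ k ∈ K, w ^ k * dk n k * fm n k μ μ ≤ B := by
  have := hμ.1
  set F : ℕ → En n × En n → ℝ := fun k p => w ^ k * dk n k * Pg n k ⟪p.1, p.2⟫ with hF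
  have hc : ∀ k, 0 ≤ w ^ k * dk n k := fun k => mul_nonneg (pow_nonneg hw.1.le _) (dk_nonneg hn k)
  have hFint : ∀ k, Integrable (F k) (μ.prod μ) := fun k => (int_Pg hB hn k hμ hμ).const_mul _
  have hFval : ∀ k, ∫ p, F k p ∂(μ.prod μ) = w ^ k * dk n k * fm n k μ μ := by
    intro k
    rw [fm_eq hB hn k hμ hμ, ← integral_const_mul]
  have hFnorm : ∀ k, ∫ p, ‖F k p‖ ∂(μ.prod μ) ≤ w ^ k * dk n k := by
    intro k
    have h3 : ∫ p, ‖F k p‖ ∂(μ.prod μ) ≤ ∫ _p, w ^ k * dk n k ∂(μ.prod μ) := by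
      refine integral_mono_ae (hFint k).norm (integrable_const _) ?_
      filter_upwards [ae_norm2 hμ hμ] with p hp
      show ‖w ^ k * dk n k * Pg n k ⟪p.1, p.2⟫‖ ≤ w ^ k * dk n k
      rw [norm_mul, Real.norm_of_nonneg (hc k)]
      have h4 := Pg_le' hB hn k (inner_le hp.1 hp.2)
      have h5 := hc k
      rw [Real.norm_eq_abs]
      nlinarith
    simpa using h3
  have hsum := hasSum_integral_of_summable_integral_norm hFint
    (Summable.of_nonneg_of_le (fun k => integral_nonneg fun _ => norm_nonneg _) hFnorm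
      (summ h2 hn hw.1.le hw.2))
  simp only [hFval] at hsum
  have htot : ∫ p, ∑' k, F k p ∂(μ.prod μ) = ∫ p, pk n w ⟪p.1, p.2⟫ ∂(μ.prod μ) := by
    refine integral_congr_ae ?_
    filter_upwards [ae_norm2 hμ hμ] with p hp
    exact (h2 n hn w hw.1.le hw.2 _ (inner_le hp.1 hp.2)).tsum_eq
  have hpkm : Measurable (pk n w) := by
    unfold pk
    fun_prop
  have hpkb : ∀ t, |t| ≤ 1 → |pk n w t| ≤ ∑' k : ℕ, w ^ k * dk n k := by
    intro t ht
    have h3 := h2 n hn w hw.1.le hw.2 t ht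
    rw [← h3.tsum_eq, ← Real.norm_eq_abs]
    refine (norm_tsum_le_tsum_norm ?_).trans ?_
    · refine Summable.of_nonneg_of_le (fun _ => norm_nonneg _) (fun k => ?_)
        (summ h2 hn hw.1.le hw.2)
      rw [norm_mul, Real.norm_of_nonneg (hc k), Real.norm_eq_abs]
      have h4 := Pg_le' hB hn k ht
      have h5 := hc k
      nlinarith
    · refine Summable.tsum_le_tsum (fun k => ?_) ?_ (summ h2 hn hw.1.le hw.2)
      · rw [norm_mul, Real.norm_of_nonneg (hc k), Real.norm_eq_abs]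
        have h4 := Pg_le' hB hn k ht
        have h5 := hc k
        nlinarith
      · refine Summable.of_nonneg_of_le (fun _ => norm_nonneg _) (fun k => ?_)
          (summ h2 hn hw.1.le hw.2)
        rw [norm_mul, Real.norm_of_nonneg (hc k), Real.norm_eq_abs]
        have h4 := Pg_le' hB hn k ht
        have h5 := hc k
        nlinarith
  have hpki := int_ker hμ hμ (pk n w) hpkm _ hpkb
  have hle : ∫ p, pk n w ⟪p.1, p.2⟫ ∂(μ.prod μ) ≤ B := by
    rw [integral_prod _ hpki]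
    have h6 : ∫ u, ∫ v, pk n w ⟪u, v⟫ ∂μ ∂μ ≤ ∫ _u : En n, B ∂μ := by
      refine integral_mono_ae hpki.integral_prod_left (integrable_const _) ?_
      filter_upwards [ae_norm hμ] with u hu
      exact hpk u hu
    simpa using h6
  rw [htot] at hsum
  refine le_trans (sum_le_hasSum K (fun k _ => ?_) hsum) hle
  refine mul_nonneg (hc k) ?_
  have h7 := h1 n k 1 hn (fun _ => μ) (fun _ => 1) (fun _ => hμ)
  simpa using h7

end sph

/-! ### The mean value `LE` -/

theorem wf_mem {α φ : ℝ} (hα : 0 < α) (hα' : α < Real.pi) (hc : Real.cos α ≠ 0)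
    (hφ : φ ∈ Ioo (0 : ℝ) Real.pi) : wf α φ ∈ Ioo (0 : ℝ) 1 := by
  have h1 : 0 < Real.sin α := Real.sin_pos_of_pos_of_lt_pi hα hα'
  have h2 : 0 < Real.sin φ := Real.sin_pos_of_pos_of_lt_pi hφ.1 hφ.2
  have h3 := Real.sin_sq_add_cos_sq α
  have h4 : 0 < Real.cos α ^ 2 := by positivity
  have h5 : Real.sin φ ^ 2 ≤ 1 := Real.sin_sq_le_one φ
  have h6 : 0 < (Real.sin α * Real.sin φ) ^ 2 := by positivity
  have h7 : (Real.sin α * Real.sin φ) ^ 2 < 1 := by
    rw [mul_pow]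
    nlinarith [sq_nonneg (Real.sin α)]
  unfold wf
  constructor
  · exact Real.sqrt_pos.2 (by linarith)
  · rw [Real.sqrt_lt' one_pos]
    linarith

theorem wf_cont (α : ℝ) : Continuous (wf α) := by
  unfold wf
  fun_prop

theorem LE_mono {n : ℕ} {f g : ℝ → ℝ}
    (hf : IntervalIntegrable (fun φ => f φ * Real.sin φ ^ (n - 3)) volume 0 Real.pi)
    (hg : IntervalIntegrable (fun φ => g φ * Real.sin φ ^ (n - 3)) volume 0 Real.pi)
    (h : ∀ φ ∈ Ioo (0 : ℝ) Real.pi, f φ ≤ g φ) : LE n f ≤ LE n g := by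
  unfold Pool.Agent.W778.AG.LE
  have h0 : 0 < ∫ φ in (0 : ℝ)..Real.pi, Real.sin φ ^ (n - 3) := integral_sin_pow_pos _
  refine div_le_div_of_nonneg_right ?_ h0.le
  refine intervalIntegral.integral_mono_on_of_le_Ioo Real.pi_pos.le hf hg fun φ hφ => ?_
  exact mul_le_mul_of_nonneg_right (h φ hφ)
    (pow_nonneg (Real.sin_pos_of_pos_of_lt_pi hφ.1 hφ.2).le _)

theorem LE_const {n : ℕ} (c : ℝ) (f : ℝ → ℝ) : LE n (fun φ => c * f φ) = c * LE n f := by
  unfold Pool.Agent.W778.AG.LE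
  have h : ∀ φ : ℝ, c * f φ * Real.sin φ ^ (n - 3) = c * (f φ * Real.sin φ ^ (n - 3)) :=
    fun φ => by ring
  simp only [h]
  rw [intervalIntegral.integral_const_mul, mul_div_assoc]

theorem LE_sum {n : ℕ} (K : Finset ℕ) (c : ℕ → ℝ) (α : ℝ) :
    LE n (fun φ => ∑ k ∈ K, c k * wf α φ ^ k) = ∑ k ∈ K, c k * LE n (fun φ => wf α φ ^ k) := by
  unfold Pool.Agent.W778.AG.LE
  have h : ∀ φ : ℝ, (∑ k ∈ K, c k * wf α φ ^ k) * Real.sin φ ^ (n - 3) =
      ∑ k ∈ K, c k * (wf α φ ^ k * Real.sin φ ^ (n - 3)) := by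
    intro φ
    rw [Finset.sum_mul]
    exact Finset.sum_congr rfl fun k _ => by ring
  simp only [h]
  rw [intervalIntegral.integral_finsetSum, Finset.sum_div]
  · refine Finset.sum_congr rfl fun k _ => ?_
    rw [intervalIntegral.integral_const_mul, mul_div_assoc]
  · intro k _
    exact ((continuous_const.mul (((wf_cont α).pow k).mul
      (Real.continuous_sin.pow _))).intervalIntegrable _ _)

/-! ### The diagonal terms -/

section diag

variable {n q : ℕ} {α : ℝ} {Γ : ℝ → ℝ} {η η' : ℝ} {μ : Measure (En n)} {D : ℝ}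

theorem fm_self_nonneg (h1 : S_PSD) (hn : 3 ≤ n) (hμ : Sph μ) (k : ℕ) : 0 ≤ fm n k μ μ := by
  have h7 := h1 n k 1 hn (fun _ => μ) (fun _ => 1) (fun _ => hμ)
  simpa using h7

theorem diag_step (h1 : S_PSD) (hB : S_BD) (hn : 3 ≤ n) (hμ : Sph μ) (K : Finset ℕ) :
    ∑ k ∈ K, dk n k * |Pg n k (Real.cos α)| * fm n k μ μ ≤
      LE n (fun φ => ∑ k ∈ K, (dk n k * fm n k μ μ) * wf α φ ^ k) := by
  rw [LE_sum]
  refine Finset.sum_le_sum fun k _ => ?_
  have h3 := hB n k hn α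
  have h4 : 0 ≤ dk n k * fm n k μ μ := mul_nonneg (dk_nonneg hn k) (fm_self_nonneg h1 hn hμ k)
  calc dk n k * |Pg n k (Real.cos α)| * fm n k μ μ =
      dk n k * fm n k μ μ * |Pg n k (Real.cos α)| := by ring
    _ ≤ _ := mul_le_mul_of_nonneg_left h3 h4

theorem diag_even (h1 : S_PSD) (h2 : S_SUM) (hB : S_BD) (hn : 3 ≤ n) (hα : 0 < α)
    (hα' : α < Real.pi) (hc : Real.cos α ≠ 0)
    (hi : IntervalIntegrable (fun φ => Γ (wf α φ) * Real.sin φ ^ (n - 3)) volume 0 Real.pi)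
    (hη : LE n (fun φ => Γ (wf α φ)) ≤ η') (hμ : Sph μ) (hD : 0 ≤ D)
    (hpk : ∀ r ∈ Ioo (0 : ℝ) 1, ∀ v : En n, ‖v‖ = 1 → ∫ u, pk n r ⟪v, u⟫ ∂μ ≤ D * Γ r)
    (K : Finset ℕ) : ∑ k ∈ K, dk n k * |Pg n k (Real.cos α)| * fm n k μ μ ≤ D * η' := by
  refine (diag_step h1 hB hn hμ K).trans ?_
  refine le_trans (LE_mono (g := fun φ => D * Γ (wf α φ)) ?_ ?_ ?_) ?_
  · refine Continuous.intervalIntegrable ?_ _ _
    have := wf_cont α
    fun_prop
  · have := hi.const_mul D
    refine this.congr ?_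
    intro φ _
    simp only
    ring
  · intro φ hφ
    have hw := wf_mem hα hα' hc hφ
    have h3 := psum h1 h2 hB hn hμ hw (hpk _ hw) K
    refine le_trans (le_of_eq ?_) h3
    exact Finset.sum_congr rfl fun k _ => by ring
  · rw [LE_const]
    exact mul_le_mul_of_nonneg_left hη hD

theorem diag_tail (h1 : S_PSD) (h2 : S_SUM) (hB : S_BD) (hn : 3 ≤ n) (hα : 0 < α)
    (hα' : α < Real.pi) (hc : Real.cos α ≠ 0)
    (hi : IntervalIntegrable (fun φ => wf α φ ^ q * Γ (Real.sqrt (wf α φ)) *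
      Real.sin φ ^ (n - 3)) volume 0 Real.pi)
    (hη : LE n (fun φ => wf α φ ^ q * Γ (Real.sqrt (wf α φ))) ≤ η) (hμ : Sph μ) (hD : 0 ≤ D)
    (hpk : ∀ r ∈ Ioo (0 : ℝ) 1, ∀ v : En n, ‖v‖ = 1 → ∫ u, pk n r ⟪v, u⟫ ∂μ ≤ D * Γ r)
    (K : Finset ℕ) (hK : ∀ k ∈ K, 2 * q ≤ k) :
    ∑ k ∈ K, dk n k * |Pg n k (Real.cos α)| * fm n k μ μ ≤ D * η := by
  refine (diag_step h1 hB hn hμ K).trans ?_
  refine le_trans (LE_mono (g := fun φ => D * (wf α φ ^ q * Γ (Real.sqrt (wf α φ)))) ?_ ?_ ?_) ?_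
  · refine Continuous.intervalIntegrable ?_ _ _
    have := wf_cont α
    fun_prop
  · have := hi.const_mul D
    refine this.congr ?_
    intro φ _
    simp only
    ring
  · intro φ hφ
    have hw := wf_mem hα hα' hc hφ
    set w := wf α φ with hwdef
    have hs0 : 0 < Real.sqrt w := Real.sqrt_pos.2 hw.1
    have hs1 : Real.sqrt w < 1 := by
      rw [Real.sqrt_lt' one_pos]
      linarith [hw.2]
    have hss : Real.sqrt w * Real.sqrt w = w := Real.mul_self_sqrt hw.1.le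
    have h3 := psum h1 h2 hB hn hμ (w := Real.sqrt w) ⟨hs0, hs1⟩ (hpk _ ⟨hs0, hs1⟩) K
    have hpow : ∀ k ∈ K, w ^ k ≤ w ^ q * Real.sqrt w ^ k := by
      intro k hk
      have e1 : w ^ k = Real.sqrt w ^ k * Real.sqrt w ^ k := by rw [← mul_pow, hss]
      have e2 : w ^ q = Real.sqrt w ^ (2 * q) := by rw [pow_mul, sq, hss]
      rw [e1, e2]
      exact mul_le_mul_of_nonneg_right (pow_le_pow_of_le_one hs0.le hs1.le (hK k hk))
        (pow_nonneg hs0.le _)
    calc ∑ k ∈ K, dk n k * fm n k μ μ * w ^ k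
        ≤ ∑ k ∈ K, w ^ q * (Real.sqrt w ^ k * dk n k * fm n k μ μ) := by
          refine Finset.sum_le_sum fun k hk => ?_
          have h4 : 0 ≤ dk n k * fm n k μ μ :=
            mul_nonneg (dk_nonneg hn k) (fm_self_nonneg h1 hn hμ k)
          calc dk n k * fm n k μ μ * w ^ k ≤ dk n k * fm n k μ μ * (w ^ q * Real.sqrt w ^ k) :=
                mul_le_mul_of_nonneg_left (hpow k hk) h4
            _ = _ := by ring
      _ = w ^ q * ∑ k ∈ K, Real.sqrt w ^ k * dk n k * fm n k μ μ := by rw [Finset.mul_sum]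
      _ ≤ w ^ q * (D * Γ (Real.sqrt w)) := mul_le_mul_of_nonneg_left h3 (pow_nonneg hw.1.le _)
      _ = D * (w ^ q * Γ (Real.sqrt w)) := by ring
  · rw [LE_const]
    exact mul_le_mul_of_nonneg_left hη hD

end diag

/-! ### Finite sums -/

theorem offdiag {J : ℕ} (g : Fin J → Fin J → ℝ) (hg : ∀ i j, g i j = g j i) :
    ∑ i, ∑ j, g i j = ∑ i, g i i +
      2 * ∑ i, ∑ j ∈ Finset.univ.filter (fun j => i < j), g i j := by
  have h1 : ∀ i j : Fin J, g i j = (if i < j then g i j else 0) + (if j < i then g i j else 0) +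
      (if j = i then g i j else 0) := by
    intro i j
    rcases lt_trichotomy i j with h | h | h
    · rw [if_pos h, if_neg (not_lt.2 h.le), if_neg h.ne']; ring
    · subst h; rw [if_neg (lt_irrefl _), if_pos rfl]; ring
    · rw [if_neg (not_lt.2 h.le), if_pos h, if_neg h.ne]; ring
  have h2 : ∑ i, ∑ j, g i j = ∑ i, ∑ j, (if i < j then g i j else 0) +
      ∑ i, ∑ j, (if j < i then g i j else 0) + ∑ i, ∑ j, (if j = i then g i j else 0) := by
    rw [← Finset.sum_add_distrib, ← Finset.sum_add_distrib]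
    refine Finset.sum_congr rfl fun i _ => ?_
    rw [← Finset.sum_add_distrib, ← Finset.sum_add_distrib]
    exact Finset.sum_congr rfl fun j _ => h1 i j
  have h3 : ∑ i, ∑ j, (if j < i then g i j else 0) = ∑ i, ∑ j, (if i < j then g i j else 0) := by
    rw [Finset.sum_comm]
    refine Finset.sum_congr rfl fun i _ => Finset.sum_congr rfl fun j _ => ?_
    rw [hg j i]
  have h4 : ∑ i, ∑ j, (if j = i then g i j else 0) = ∑ i, g i i := by
    refine Finset.sum_congr rfl fun i _ => ?_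
    rw [Finset.sum_ite_eq' Finset.univ i, if_pos (Finset.mem_univ i)]
  have h5 : ∑ i, ∑ j ∈ Finset.univ.filter (fun j => i < j), g i j =
      ∑ i, ∑ j, (if i < j then g i j else 0) := by
    refine Finset.sum_congr rfl fun i _ => ?_
    rw [Finset.sum_filter]
  rw [h2, h3, h4, h5]
  ring

theorem t_A2 (h1 : S_PSD) (h2 : S_SUM) (hB : S_BD) : S_A2 := by
  classical
  intro n q J α Γ η' η μ D r hn hα hα' hc heven _ hi' hi hη' hη hμ hD hpk hr
  set f : ℕ → Fin J → Fin J → ℝ := fun k i j => fm n k (μ i) (μ j) with hf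
  have hsym : ∀ k i j, f k i j = f k j i := fun k i j => fm_symm hB hn k (hμ i) (hμ j)
  have hii : ∀ k i, 0 ≤ f k i i := fun k i => fm_self_nonneg h1 hn (hμ i) k
  have hij : ∀ k i j, -((f k i i + f k j j) / 2) ≤ f k i j ∧ f k i j ≤ (f k i i + f k j j) / 2 := by
    intro k i j
    have hs : ∀ l : Fin 2, Sph ((![μ i, μ j] : Fin 2 → Measure (En n)) l) := by
      intro l
      fin_cases l
      · exact hμ i
      · exact hμ j
    have e1 := h1 n k 2 hn ![μ i, μ j] ![1, 1] hs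
    have e2 := h1 n k 2 hn ![μ i, μ j] ![1, -1] hs
    have e3 := hsym k i j
    simp [Fin.sum_univ_two] at e1 e2
    simp only [hf] at e3 ⊢
    constructor <;> linarith
  have hall : ∀ k, 0 ≤ ∑ i, ∑ j, f k i j := by
    intro k
    have e1 := h1 n k J hn μ (fun _ => 1) hμ
    simpa using e1
  set F : ℕ → ℝ := fun k => ∑ i, ∑ j ∈ Finset.univ.filter (fun j => i < j), f k i j with hF
  set S : ℕ → ℝ := fun k => ∑ i, f k i i with hS
  have hS0 : ∀ k, 0 ≤ S k := fun k => Finset.sum_nonneg fun i _ => hii k i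
  have hFlow : ∀ k, -(S k / 2) ≤ F k := by
    intro k
    have e1 := offdiag (f k) (hsym k)
    have e2 := hall k
    rw [e1] at e2
    show -((∑ i, f k i i) / 2) ≤ ∑ i, ∑ j ∈ Finset.univ.filter (fun j => i < j), f k i j
    linarith
  have hcnt : ∑ i : Fin J, ∑ j ∈ Finset.univ.filter (fun j => i < j), (1 : ℝ) =
      (J : ℝ) * (J - 1) / 2 := by
    have e1 := offdiag (J := J) (fun _ _ => (1 : ℝ)) (fun _ _ => rfl)
    simp only [Finset.sum_const, Finset.card_univ, Fintype.card_fin, nsmul_eq_mul, mul_one] at e1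
    simp only [Finset.sum_const, nsmul_eq_mul, mul_one]
    linarith
  have hhalf : ∀ k, ∑ i, ∑ j ∈ Finset.univ.filter (fun j => i < j), (f k i i + f k j j) / 2 ≤
      (J : ℝ) / 2 * S k := by
    intro k
    have e1 := offdiag (J := J) (fun i j => (f k i i + f k j j) / 2) (fun i j => by ring)
    have e2 : ∑ i : Fin J, ∑ j : Fin J, (f k i i + f k j j) / 2 = (J : ℝ) * S k := by
      simp only [add_div, Finset.sum_add_distrib, Finset.sum_const, Finset.card_univ,
        Fintype.card_fin, nsmul_eq_mul, ← Finset.mul_sum, ← Finset.sum_div]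
      show (J : ℝ) * (S k / 2) + J * (S k / 2) = J * S k
      ring
    have e3 : ∑ i : Fin J, (f k i i + f k i i) / 2 = S k := by
      refine Finset.sum_congr rfl fun i _ => ?_
      ring
    rw [e2, e3] at e1
    have := hS0 k
    linarith
  have hFabs : ∀ k, |F k| ≤ (J : ℝ) / 2 * S k := by
    intro k
    rw [abs_le]
    constructor
    · refine le_trans (neg_le_neg (hhalf k)) ?_
      rw [← Finset.sum_neg_distrib]
      refine Finset.sum_le_sum fun i _ => ?_
      rw [← Finset.sum_neg_distrib]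
      exact Finset.sum_le_sum fun j _ => (hij k i j).1
    · refine le_trans ?_ (hhalf k)
      exact Finset.sum_le_sum fun i _ => Finset.sum_le_sum fun j _ => (hij k i j).2
  -- the terms
  set G : ℕ → ℝ := fun k => ∑ i, ∑ j ∈ Finset.univ.filter (fun j => i < j),
    r ^ k * dk n k * (Pg n k (Real.cos α) * f k i j) with hG
  have hGF : ∀ k, G k = r ^ k * dk n k * Pg n k (Real.cos α) * F k := by
    intro k
    simp only [hG, hF, Finset.mul_sum]
    refine Finset.sum_congr rfl fun i _ => Finset.sum_congr rfl fun j _ => ?_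
    ring
  set b : ℕ → ℝ := fun k => dk n k * |Pg n k (Real.cos α)| * S k with hb
  have hb0 : ∀ k, 0 ≤ b k := fun k =>
    mul_nonneg (mul_nonneg (dk_nonneg hn k) (abs_nonneg _)) (hS0 k)
  have hrk0 : ∀ k, 0 ≤ r ^ k := fun k => pow_nonneg hr.1.le k
  have hrk1 : ∀ k, r ^ k ≤ 1 := fun k => pow_le_one₀ hr.1.le hr.2.le
  have hsum : HasSum G (∑ i, ∑ j ∈ Finset.univ.filter (fun j => i < j),
      ∑' k : ℕ, r ^ k * dk n k * (Pg n k (Real.cos α) * fm n k (μ i) (μ j))) := by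
    refine hasSum_sum fun i _ => hasSum_sum fun j _ => Summable.hasSum ?_
    refine Summable.of_norm_bounded (summ h2 hn hr.1.le hr.2) fun k => ?_
    have e1 := Pg_le' hB hn k (Real.abs_cos_le_one α)
    have e2 := fm_le hB hn k (hμ i) (hμ j)
    have e3 : 0 ≤ r ^ k * dk n k := mul_nonneg (hrk0 k) (dk_nonneg hn k)
    rw [norm_mul, Real.norm_of_nonneg e3, Real.norm_eq_abs, abs_mul]
    have e4 : |Pg n k (Real.cos α)| * |fm n k (μ i) (μ j)| ≤ 1 := mul_le_one₀ e1 (abs_nonneg _) e2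
    nlinarith
  have hG0 : G 0 = (J : ℝ) * (J - 1) / 2 := by
    rw [← hcnt]
    refine Finset.sum_congr rfl fun i _ => Finset.sum_congr rfl fun j _ => ?_
    rw [pow_zero, dk_zero hn]
    have e1 : Pg n 0 (Real.cos α) = 1 := rfl
    have e2 : f 0 i j = 1 := fm_zero (hμ i) (hμ j)
    rw [e1, e2]
    ring
  have hGeven : ∀ k, k < 2 * q → Even k → -(1 / 2) * b k ≤ G k := by
    intro k hk hev
    have e1 := heven k hk hev
    have e2 := hFlow k
    have e3 := dk_nonneg hn k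
    have e4 := hS0 k
    rw [hGF k]
    show -(1 / 2) * (dk n k * |Pg n k (Real.cos α)| * S k) ≤ _
    rw [abs_of_nonneg e1]
    have e5 : 0 ≤ dk n k * Pg n k (Real.cos α) := mul_nonneg e3 e1
    have e6 : r ^ k * (dk n k * Pg n k (Real.cos α)) * (-(S k / 2)) ≤
        r ^ k * (dk n k * Pg n k (Real.cos α)) * F k :=
      mul_le_mul_of_nonneg_left e2 (mul_nonneg (hrk0 k) e5)
    have e7 : r ^ k * (dk n k * Pg n k (Real.cos α) * S k) ≤
        1 * (dk n k * Pg n k (Real.cos α) * S k) :=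
      mul_le_mul_of_nonneg_right (hrk1 k) (mul_nonneg e5 e4)
    nlinarith
  have hGtail : ∀ k, -((J : ℝ) / 2) * b k ≤ G k := by
    intro k
    have e1 : |G k| ≤ (J : ℝ) / 2 * b k := by
      rw [hGF k, abs_mul, abs_mul, abs_mul, abs_of_nonneg (hrk0 k), abs_of_nonneg (dk_nonneg hn k)]
      have e3 : 0 ≤ dk n k * |Pg n k (Real.cos α)| := mul_nonneg (dk_nonneg hn k) (abs_nonneg _)
      calc r ^ k * dk n k * |Pg n k (Real.cos α)| * |F k|
          = r ^ k * (dk n k * |Pg n k (Real.cos α)| * |F k|) := by ring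
        _ ≤ 1 * (dk n k * |Pg n k (Real.cos α)| * |F k|) :=
            mul_le_mul_of_nonneg_right (hrk1 k) (mul_nonneg e3 (abs_nonneg _))
        _ ≤ 1 * (dk n k * |Pg n k (Real.cos α)| * ((J : ℝ) / 2 * S k)) := by
            gcongr
            exact hFabs k
        _ = (J : ℝ) / 2 * b k := by rw [hb]; ring
    have e2 := neg_abs_le (G k)
    linarith
  -- the sums of the diagonal terms
  have hbsum : ∀ K : Finset ℕ, ∑ k ∈ K, b k =
      ∑ i, ∑ k ∈ K, dk n k * |Pg n k (Real.cos α)| * fm n k (μ i) (μ i) := by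
    intro K
    rw [Finset.sum_comm]
    refine Finset.sum_congr rfl fun k _ => ?_
    rw [hb]
    simp only [hS, Finset.mul_sum]
    rfl
  have hbE : ∀ K : Finset ℕ, ∑ k ∈ K, b k ≤ η' * ∑ i, D i := by
    intro K
    rw [hbsum, Finset.mul_sum]
    refine Finset.sum_le_sum fun i _ => ?_
    rw [mul_comm η']
    exact diag_even h1 h2 hB hn hα hα' hc hi' hη' (hμ i) (hD i) (hpk i) K
  have hbT : ∀ K : Finset ℕ, (∀ k ∈ K, 2 * q ≤ k) → ∑ k ∈ K, b k ≤ η * ∑ i, D i := by
    intro K hK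
    rw [hbsum, Finset.mul_sum]
    refine Finset.sum_le_sum fun i _ => ?_
    rw [mul_comm η]
    exact diag_tail h1 h2 hB hn hα hα' hc hi hη (hμ i) (hD i) (hpk i) K hK
  -- the comparison
  refine ge_of_tendsto hsum.tendsto_sum_nat ?_
  filter_upwards [eventually_ge_atTop (2 * q + 1)] with N hN
  have hL : ∀ k, (if k = 0 then (J : ℝ) * (J - 1) / 2 else 0) +
      (if k < 2 * q ∧ Odd k then G k else 0) - 1 / 2 * (if k < 2 * q ∧ Even k then b k else 0) -
      (J : ℝ) / 2 * (if 2 * q ≤ k then b k else 0) ≤ G k := by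
    intro k
    have hbk := hb0 k
    have hJ : (0 : ℝ) ≤ J := Nat.cast_nonneg J
    rcases Nat.eq_zero_or_pos k with h0 | h0
    · subst h0
      have e1 : ¬ (0 < 2 * q ∧ Odd 0) := fun h => by simp at h
      rw [if_pos rfl, if_neg e1, hG0]
      have e4 : 0 ≤ (J : ℝ) * b 0 := mul_nonneg hJ hbk
      split_ifs <;> linarith
    · rw [if_neg h0.ne']
      rcases lt_or_ge k (2 * q) with h | h
      · rw [if_neg (not_le.2 h)]
        rcases Nat.even_or_odd k with he | ho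
        · rw [if_neg (fun h' => (Nat.not_odd_iff_even.2 he) h'.2), if_pos ⟨h, he⟩]
          have := hGeven k h he
          linarith
        · rw [if_pos ⟨h, ho⟩, if_neg (fun h' => (Nat.not_even_iff_odd.2 ho) h'.2)]
          linarith
      · rw [if_neg (fun h' => absurd h'.1 (not_lt.2 h)), if_neg (fun h' => absurd h'.1 (not_lt.2 h)),
          if_pos h]
        have := hGtail k
        linarith
  refine le_trans ?_ (Finset.sum_le_sum fun k _ => hL k)
  rw [Finset.sum_sub_distrib, Finset.sum_sub_distrib, Finset.sum_add_distrib, ← Finset.mul_sum,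
    ← Finset.mul_sum, Finset.sum_ite_eq' (Finset.range N) 0, if_pos (Finset.mem_range.2 (by omega)),
    ← Finset.sum_filter, ← Finset.sum_filter, ← Finset.sum_filter]
  have hset : (Finset.range N).filter (fun k => k < 2 * q ∧ Odd k) =
      (Finset.range (2 * q)).filter (fun k => Odd k) := by
    ext k
    simp only [Finset.mem_filter, Finset.mem_range]
    constructor
    · rintro ⟨_, h⟩; exact h
    · rintro ⟨h, h'⟩; exact ⟨by omega, h, h'⟩
  rw [hset]
  have hodd : ∑ i, ∑ j ∈ Finset.univ.filter (fun j => i < j),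
      ∑ k ∈ (Finset.range (2 * q)).filter (fun k => Odd k),
        r ^ k * (dk n k * Pg n k (Real.cos α) * fm n k (μ i) (μ j)) =
      ∑ k ∈ (Finset.range (2 * q)).filter (fun k => Odd k), G k := by
    simp only [hG]
    rw [Finset.sum_comm]
    refine Finset.sum_congr rfl fun i _ => ?_
    rw [Finset.sum_comm]
    refine Finset.sum_congr rfl fun k _ => Finset.sum_congr rfl fun j _ => ?_
    simp only [hf]
    ring
  rw [hodd]
  have e1 := hbE ((Finset.range N).filter (fun k => k < 2 * q ∧ Even k))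
  have e2 := hbT ((Finset.range N).filter (fun k => 2 * q ≤ k))
    (fun k hk => (Finset.mem_filter.1 hk).2)
  have hJ : (0 : ℝ) ≤ J := Nat.cast_nonneg J
  have e3 : (J : ℝ) / 2 * ∑ k ∈ (Finset.range N).filter (fun k => 2 * q ≤ k), b k ≤
      (J : ℝ) / 2 * (η * ∑ i, D i) := mul_le_mul_of_nonneg_left e2 (by positivity)
  linarith

end Pool.Agent.H726.AG
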